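import Pool.Agent.X14.QW

/-!
# A q-congruence modulo `Φ_n(q)^2` with numerator parameters `q, …, q^d`
-/

set_option autoImplicit false

namespace Pool.Agent.Results.MP_4d1f21_nt.AllD

open Finset Polynomial

noncomputable section

/-- The indeterminate `q`, as an element of `ℚ(q)`. -/
def q : RatFunc ℚ := RatFunc.X

/-- The q-shifted factorial `(a; x)_k = (1 - a)(1 - a x) ⋯ (1 - a x^{k-1})`. -/
def qp (a x : RatFunc ℚ) (k : ℕ) : RatFunc ℚ := ∏ j ∈ range k, (1 - a * x ^ j)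

/-- The sum of the problem, with `m = d(d+1)/2`; here
`∏_{j<d} (q^{j+1}; q^m)_k = (q, q^2, …, q^d; q^m)_k`. -/
def S (d n : ℕ) : RatFunc ℚ :=
  ∑ k ∈ range n, (∏ j ∈ range d, qp (q ^ (j + 1)) (q ^ (d * (d + 1) / 2)) k) /
    qp (q ^ (d * (d + 1) / 2)) (q ^ (d * (d + 1) / 2)) k ^ d * q ^ (d * (d + 1) / 2 * k)

/-- `A ≡ 0 (mod Φ^2)`: `A = U / V` with polynomials `U`, `V`, where `V` is coprime to `Φ` and
`Φ^2` divides `U`. -/
def ZeroSq (Φ : ℚ[X]) (A : RatFunc ℚ) : Prop :=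
  ∃ U V : ℚ[X], IsCoprime V Φ ∧ Φ ^ 2 ∣ U ∧
    A = algebraMap ℚ[X] (RatFunc ℚ) U / algebraMap ℚ[X] (RatFunc ℚ) V

open Pool.Agent.X14 QL QBlock

lemma q_def : q = QL.q := rfl

variable {n m : ℕ}

/-- products of one-units, first order -/
lemma prod_first {P : ℚ[X]} {ι : Type*} (s : Finset ι) (x : ι → RatFunc ℚ) (hx : ∀ i ∈ s, QO P 1 (x i)) :
    Eqm P 2 (∏ i ∈ s, (1 + x i)) (1 + ∑ i ∈ s, x i) := by
  classical
  induction s using Finset.induction_on with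
  | empty => simpa using Eqm.refl (P := P) (k := 2) (1 : RatFunc ℚ)
  | insert a s ha ih =>
    rw [prod_insert ha, sum_insert ha]
    have h1 := hx a (mem_insert_self a s)
    have h2 := ih (fun i hi => hx i (mem_insert_of_mem hi))
    have hs : QO P 1 (∑ i ∈ s, x i) := QO.sum (fun i hi => hx i (mem_insert_of_mem hi))
    have h3 := (QO.mul_left ((Loc P).add_mem (Loc P).one_mem h1.mem) h2).add (QO.mul h1 hs)
    unfold Eqm
    convert h3 using 1
    ring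

/-- `H_k = ∑_{l ≤ k} X^l / (1 - X^l)`, `X = q^m` -/
def H (m k : ℕ) : RatFunc ℚ := ∑ l ∈ range k, QL.q ^ (m * (l + 1)) / (1 - QL.q ^ (m * (l + 1)))

lemma not_dvd (hc : Nat.Coprime n m) {s : ℕ} (h0 : 0 < s) (h1 : s < n) : ¬ n ∣ m * s := by
  intro h
  have := Nat.le_of_dvd h0 (hc.dvd_of_dvd_mul_left h)
  omega

lemma not_dvd' (hc : Nat.Coprime n m) {s : ℕ} (h0 : 0 < s) (h1 : s < n) (j : ℤ) :
    ¬ (n : ℤ) ∣ ((m * s : ℕ) : ℤ) - j * n := by
  intro h
  have h2 : (n : ℤ) ∣ ((m * s : ℕ) : ℤ) := by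
    have := (dvd_sub_left (dvd_mul_left (n : ℤ) j)).1 h
    exact this
  exact not_dvd hc h0 h1 (by exact_mod_cast h2)

/-- `∑_{l=1}^{n-1} X^{sl} ≡ -1 (mod Φ)` -/
lemma power_sum (hc : Nat.Coprime n m) {s : ℕ} (h0 : 0 < s) (h1 : s < n) :
    Eqm (cyclotomic n ℚ) 1 (∑ l ∈ range (n - 1), QL.q ^ (m * s * (l + 1))) (-1) := by
  have hn0 : 0 < n := by omega
  have hnd := not_dvd hc h0 h1
  have hne : 1 - QL.q ^ (m * s) ≠ 0 := one_sub_ne (Nat.pos_of_ne_zero (fun h => hnd (h ▸ dvd_zero n)))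
  have e1 : ∑ l ∈ range (n - 1), QL.q ^ (m * s * (l + 1)) + 1 = (1 - QL.q ^ (m * s * n)) * (1 - QL.q ^ (m * s))⁻¹ := by
    have h2 := geom_sum_mul (QL.q ^ (m * s)) n
    obtain ⟨N, rfl⟩ : ∃ N, n = N + 1 := ⟨n - 1, by omega⟩
    rw [sum_range_succ'] at h2
    rw [Nat.add_sub_cancel]
    simp only [← pow_mul] at h2
    rw [eq_mul_inv_iff_mul_eq₀ hne]
    rw [mul_zero, pow_zero] at h2
    linear_combination -h2
  have h3 : QO (cyclotomic n ℚ) 1 (1 - QL.q ^ (m * s * n)) := QO_one_sub (dvd_mul_left _ _)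
  unfold Eqm
  rw [sub_neg_eq_add, e1]
  exact QO.mul_right h3 (inv_one_sub_mem hnd)

/-- summation of `H` -/
lemma sum_H (s N : ℕ) : (1 - QL.q ^ (m * s)) * ∑ k ∈ range (N + 1), QL.q ^ (m * s * k) * H m k =
    (∑ l ∈ range N, QL.q ^ (m * (l + 1)) / (1 - QL.q ^ (m * (l + 1))) * QL.q ^ (m * s * (l + 1))) - QL.q ^ (m * s * (N + 1)) * H m N := by
  induction N with
  | zero => simp [H]
  | succ N ih =>
    rw [sum_range_succ, mul_add, ih, sum_range_succ (fun l => QL.q ^ (m * (l + 1)) / (1 - QL.q ^ (m * (l + 1))) * QL.q ^ (m * s * (l + 1)))]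
    have h1 : H m (N + 1) = H m N + QL.q ^ (m * (N + 1)) / (1 - QL.q ^ (m * (N + 1))) := by
      unfold H; rw [sum_range_succ]
    have h2 : QL.q ^ (m * s * (N + 1 + 1)) = QL.q ^ (m * s * (N + 1)) * QL.q ^ (m * s) := by
      rw [← pow_add]; congr 1
    rw [h1, h2]
    ring

lemma H_mem (hc : Nat.Coprime n m) {k : ℕ} (hk : k < n) : H m k ∈ Loc (cyclotomic n ℚ) := by
  apply (Loc _).sum_mem
  intro l hl
  have := mem_range.1 hl
  rw [div_eq_mul_inv]
  exact (Loc _).mul_mem ((Loc _).pow_mem (q_mem _) _) (inv_one_sub_mem (not_dvd hc (by omega) (by omega)))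

/-- `(1 - X^s) ∑_k X^{sk} H_k ≡ s (mod Φ)` -/
lemma key_H (hc : Nat.Coprime n m) {s : ℕ} (h0 : 0 < s) (h1 : s < n) :
    Eqm (cyclotomic n ℚ) 1 ((1 - QL.q ^ (m * s)) * ∑ k ∈ range n, QL.q ^ (m * s * k) * H m k) s := by
  obtain ⟨N, rfl⟩ : ∃ N, n = N + 1 := ⟨n - 1, by omega⟩
  rw [sum_H]
  have h2 : QO (cyclotomic (N + 1) ℚ) 1 ((1 - QL.q ^ (m * s * (N + 1))) * H m N) :=
    QO.mul_right (QO_one_sub (dvd_mul_left _ _)) (H_mem hc (by omega))
  have h3 : Eqm (cyclotomic (N + 1) ℚ) 1 (∑ i ∈ range s, ∑ l ∈ range N, QL.q ^ (m * (i + 1) * (l + 1))) (∑ i ∈ range s, (-1 : RatFunc ℚ)) := by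
    apply Eqm.sum
    intro i hi
    have := mem_range.1 hi
    have h4 := power_sum (n := N + 1) hc (s := i + 1) (by omega) (by omega)
    rwa [Nat.add_sub_cancel] at h4
  rw [sum_const, card_range, nsmul_eq_mul, mul_neg, mul_one] at h3
  have e1 : ∑ l ∈ range N, QL.q ^ (m * (l + 1)) / (1 - QL.q ^ (m * (l + 1))) * QL.q ^ (m * s * (l + 1)) =
      H m N - ∑ i ∈ range s, ∑ l ∈ range N, QL.q ^ (m * (i + 1) * (l + 1)) := by
    rw [sum_comm]
    unfold H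
    rw [← sum_sub_distrib]
    apply sum_congr rfl
    intro l hl
    have hl' := mem_range.1 hl
    have hne : 1 - QL.q ^ (m * (l + 1)) ≠ 0 := one_sub_ne (Nat.pos_of_ne_zero (fun h => not_dvd hc (s := l + 1) (by omega) (by omega) (h ▸ dvd_zero _)))
    have e2 : ∑ i ∈ range s, QL.q ^ (m * (i + 1) * (l + 1)) * (1 - QL.q ^ (m * (l + 1))) =
        QL.q ^ (m * (l + 1)) * (1 - QL.q ^ (m * s * (l + 1))) := by
      clear h0 h1 h2 h3
      induction s with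
      | zero => simp
      | succ s ih =>
        rw [sum_range_succ, ih]
        have : QL.q ^ (m * (s + 1) * (l + 1)) = QL.q ^ (m * s * (l + 1)) * QL.q ^ (m * (l + 1)) := by
          rw [← pow_add]; congr 1; ring
        rw [this]; ring
    rw [← sum_mul] at e2
    field_simp
    linear_combination e2
  rw [e1]
  have h5 := h2.sub h3
  unfold Eqm
  convert h5 using 1
  ring

/-- the sum of `X^{sk} (1 + m ε H_k)` vanishes modulo `Φ^2` -/
lemma moment (hn0 : 0 < n) (hc : Nat.Coprime n m) {s : ℕ} (h0 : 0 < s) (h1 : s < n) :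
    QO (cyclotomic n ℚ) 2 (∑ k ∈ range n, QL.q ^ (m * s * k) * (1 + m * (QL.q ^ n - 1) * H m k)) := by
  have hnd := not_dvd hc h0 h1
  have hne : 1 - QL.q ^ (m * s) ≠ 0 := one_sub_ne (Nat.pos_of_ne_zero (fun h => hnd (h ▸ dvd_zero n)))
  obtain ⟨hx, hx0, hx1, hxi⟩ := x_props (n := n) (s := 1) hn0 one_pos
  rw [one_mul] at hx hx0 hx1 hxi
  have e1 : (1 - QL.q ^ (m * s)) * ∑ k ∈ range n, QL.q ^ (m * s * k) = 1 - QL.q ^ (m * s * n) := by
    have h2 := geom_sum_mul (QL.q ^ (m * s)) n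
    simp only [← pow_mul] at h2
    linear_combination -h2
  have h2 := zp hx hx0 hxi ((m * s : ℕ) : ℤ)
  rw [zpow_natCast, ← pow_mul, mul_comm n (m * s)] at h2
  have h3 := QO.mul_left ((Loc _).mul_mem (nat_mem (cyclotomic n ℚ) m) (Loc _).one_mem) (QO.mul hx (key_H hc h0 h1))
  have h4 : QO (cyclotomic n ℚ) 2 ((1 - QL.q ^ (m * s)) * ∑ k ∈ range n, QL.q ^ (m * s * k) * (1 + m * (QL.q ^ n - 1) * H m k)) := by
    have h5 := QO.sub h3 h2
    convert h5 using 1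
    have e2 : ∑ k ∈ range n, QL.q ^ (m * s * k) * (1 + m * (QL.q ^ n - 1) * H m k) =
        ∑ k ∈ range n, QL.q ^ (m * s * k) + m * (QL.q ^ n - 1) * ∑ k ∈ range n, QL.q ^ (m * s * k) * H m k := by
      rw [mul_sum, ← sum_add_distrib]
      apply sum_congr rfl
      intro k _
      ring
    rw [e2, mul_add, e1]
    push_cast
    ring
  have h5 := QO.mul_left (inv_one_sub_mem hnd) h4
  rwa [← mul_assoc, inv_mul_cancel₀ hne, one_mul] at h5

/-- the same with a polynomial of degree at most `n - 2` -/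
lemma poly_moment (hn0 : 0 < n) (hc : Nat.Coprime n m) (f : (Loc (cyclotomic n ℚ))[X]) (hf : f.natDegree + 1 < n) :
    QO (cyclotomic n ℚ) 2 (∑ k ∈ range n, QL.q ^ (m * k) * f.eval₂ (Loc (cyclotomic n ℚ)).subtype (QL.q ^ (m * k)) *
      (1 + m * (QL.q ^ n - 1) * H m k)) := by
  have e1 : ∑ k ∈ range n, QL.q ^ (m * k) * f.eval₂ (Loc (cyclotomic n ℚ)).subtype (QL.q ^ (m * k)) *
      (1 + m * (QL.q ^ n - 1) * H m k) =
      ∑ i ∈ range (f.natDegree + 1), (f.coeff i : RatFunc ℚ) * ∑ k ∈ range n, QL.q ^ (m * (i + 1) * k) * (1 + m * (QL.q ^ n - 1) * H m k) := by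
    simp only [Polynomial.eval₂_eq_sum_range, mul_sum, sum_mul]
    rw [sum_comm]
    apply sum_congr rfl
    intro i _
    apply sum_congr rfl
    intro k _
    have : QL.q ^ (m * (i + 1) * k) = QL.q ^ (m * k) * (QL.q ^ (m * k)) ^ i := by
      rw [← pow_mul, ← pow_add]; congr 1; ring
    rw [this, Subring.subtype_apply]
    ring
  rw [e1]
  apply QO.sum
  intro i hi
  have := mem_range.1 hi
  exact QO.mul_left (f.coeff i).2 (moment hn0 hc (by omega) (by omega))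

/-- the coefficients -/
def aa (m n : ℕ) (hn0 : 0 < n) (j i : ℕ) : Loc (cyclotomic n ℚ) :=
  ⟨QL.q ^ (((m * (i + 1) : ℕ) : ℤ) - ((j + 1 : ℕ) : ℤ) * n), zmem hn0 _⟩

/-- the polynomial -/
def FF (m n c d : ℕ) (hn0 : 0 < n) : (Loc (cyclotomic n ℚ))[X] :=
  ∏ j ∈ range d, ∏ i ∈ range ((j + 1) * c - 1), (1 - C (aa m n hn0 j i) * X)

lemma FF_eval (c d : ℕ) (hn0 : 0 < n) (k : ℕ) :
    (FF m n c d hn0).eval₂ (Loc (cyclotomic n ℚ)).subtype (QL.q ^ (m * k)) =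
      ∏ j ∈ range d, ∏ i ∈ range ((j + 1) * c - 1), e (((m * (k + i + 1) : ℕ) : ℤ) - ((j + 1 : ℕ) : ℤ) * n) := by
  unfold FF
  rw [Polynomial.eval₂_finsetProd]
  apply prod_congr rfl
  intro j _
  rw [Polynomial.eval₂_finsetProd]
  apply prod_congr rfl
  intro i _
  rw [Polynomial.eval₂_sub, Polynomial.eval₂_one, Polynomial.eval₂_mul, Polynomial.eval₂_C, Polynomial.eval₂_X, Subring.subtype_apply]
  unfold aa e
  rw [← zpow_natCast QL.q (m * k), ← zpow_add₀ q_ne]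
  congr 2
  push_cast
  ring

lemma FF_deg (c d : ℕ) (hn0 : 0 < n) : (FF m n c d hn0).natDegree ≤ ∑ j ∈ range d, ((j + 1) * c - 1) := by
  unfold FF
  refine (natDegree_prod_le _ _).trans (sum_le_sum (fun j _ => ?_))
  refine (natDegree_prod_le _ _).trans ?_
  have h1 : ∀ i ∈ range ((j + 1) * c - 1), (1 - C (aa m n hn0 j i) * X : (Loc (cyclotomic n ℚ))[X]).natDegree ≤ 1 := by
    intro i _
    refine (natDegree_sub_le _ _).trans ?_
    rw [natDegree_one]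
    exact max_le (Nat.zero_le _) ((natDegree_C_mul_le _ _).trans natDegree_X_le)
  refine (sum_le_sum h1).trans ?_
  simp

lemma sum_deg {c d : ℕ} (hc0 : 0 < c) : ∑ j ∈ range d, ((j + 1) * c - 1) + d = d * (d + 1) / 2 * c := by
  have h1 : ∑ j ∈ range d, ((j + 1) * c - 1) + d = ∑ j ∈ range d, (j + 1) * c := by
    have : ∑ j ∈ range d, ((j + 1) * c - 1) + d = ∑ j ∈ range d, ((j + 1) * c - 1 + 1) := by
      rw [sum_add_distrib]; simp
    rw [this]
    apply sum_congr rfl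
    intro j _
    have := Nat.mul_pos (Nat.succ_pos j) hc0
    rw [Nat.succ_eq_add_one] at this
    omega
  rw [h1, ← sum_mul]
  congr 1
  have h2 := Finset.sum_range_id_mul_two (d + 1)
  rw [sum_range_succ', add_zero, Nat.add_sub_cancel] at h2
  rw [mul_comm (d + 1) d] at h2
  omega

/-- the ratios -/
def rt (m n j l : ℕ) : RatFunc ℚ := e (((m * (l + 1) : ℕ) : ℤ) - ((j + 1 : ℕ) : ℤ) * n) / e ((m * (l + 1) : ℕ) : ℤ)

lemma rt_eqm (hn0 : 0 < n) (hc : Nat.Coprime n m) (j : ℕ) {l : ℕ} (hl : l + 1 < n) :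
    Eqm (cyclotomic n ℚ) 2 (rt m n j l - 1)
      (((j + 1 : ℕ) : RatFunc ℚ) * (QL.q ^ n - 1) * (QL.q ^ (m * (l + 1)) / (1 - QL.q ^ (m * (l + 1))))) := by
  obtain ⟨hx, hx0, hx1, hxi⟩ := x_props (n := n) (s := 1) hn0 one_pos
  rw [one_mul] at hx hx0 hx1 hxi
  have hnd := not_dvd hc (s := l + 1) (by omega) hl
  have hne : 1 - QL.q ^ (m * (l + 1)) ≠ 0 := one_sub_ne (Nat.pos_of_ne_zero (fun h => hnd (h ▸ dvd_zero n)))
  have h2 := zp hx hx0 hxi (-((j + 1 : ℕ) : ℤ))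
  have hm : QL.q ^ (m * (l + 1)) / (1 - QL.q ^ (m * (l + 1))) ∈ Loc (cyclotomic n ℚ) := by
    rw [div_eq_mul_inv]
    exact (Loc _).mul_mem ((Loc _).pow_mem (q_mem _) _) (inv_one_sub_mem hnd)
  have h3 := (QO.mul_left hm h2).neg
  unfold Eqm
  convert h3 using 1
  unfold rt
  rw [e_nat]
  have e1 : e (((m * (l + 1) : ℕ) : ℤ) - ((j + 1 : ℕ) : ℤ) * n) = 1 - QL.q ^ (m * (l + 1)) * (QL.q ^ n) ^ (-((j + 1 : ℕ) : ℤ)) := by
    unfold e
    rw [← zpow_natCast QL.q n, ← zpow_mul, ← zpow_natCast QL.q (m * (l + 1)), ← zpow_add₀ q_ne]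
    congr 2; push_cast; ring
  rw [e1]
  field_simp
  push_cast
  ring

lemma rt_prod (hn0 : 0 < n) (d : ℕ) (hm : m = d * (d + 1) / 2) (hc : Nat.Coprime n m) {k : ℕ} (hk : k < n) :
    Eqm (cyclotomic n ℚ) 2 (∏ j ∈ range d, ∏ l ∈ range k, rt m n j l) (1 + m * (QL.q ^ n - 1) * H m k) := by
  obtain ⟨hx, hx0, hx1, hxi⟩ := x_props (n := n) (s := 1) hn0 one_pos
  rw [one_mul] at hx hx0 hx1 hxi
  have hr : ∀ x ∈ (range d) ×ˢ (range k), Eqm (cyclotomic n ℚ) 2 (rt m n x.1 x.2 - 1)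
      (((x.1 + 1 : ℕ) : RatFunc ℚ) * (QL.q ^ n - 1) * (QL.q ^ (m * (x.2 + 1)) / (1 - QL.q ^ (m * (x.2 + 1))))) := by
    intro x hx'
    have := mem_product.1 hx'
    have h2 := mem_range.1 this.2
    exact rt_eqm hn0 hc x.1 (by omega)
  have hq1 : ∀ x ∈ (range d) ×ˢ (range k), QO (cyclotomic n ℚ) 1
      (((x.1 + 1 : ℕ) : RatFunc ℚ) * (QL.q ^ n - 1) * (QL.q ^ (m * (x.2 + 1)) / (1 - QL.q ^ (m * (x.2 + 1))))) := by
    intro x hx'
    have := mem_product.1 hx'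
    have h2 := mem_range.1 this.2
    refine QO.mul_right (QO.mul_left (nat_mem _ _) hx) ?_
    rw [div_eq_mul_inv]
    exact (Loc _).mul_mem ((Loc _).pow_mem (q_mem _) _) (inv_one_sub_mem (not_dvd hc (by omega) (by omega)))
  have h1 := prod_first (P := cyclotomic n ℚ) ((range d) ×ˢ (range k)) (fun x => rt m n x.1 x.2 - 1) (by
    intro x hx'
    have := QO.add (Eqm.le (hr x hx') (show 1 ≤ 2 by norm_num)) (hq1 x hx')
    rwa [sub_add_cancel] at this)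
  have h2 := (Eqm.refl (P := cyclotomic n ℚ) (k := 2) 1).add (Eqm.sum hr)
  have h3 := h1.trans h2
  simp only [add_sub_cancel] at h3
  rw [prod_product' (range d) (range k) (fun j l => rt m n j l)] at h3
  convert h3 using 2
  rw [sum_product' (range d) (range k) (fun j l => ((j + 1 : ℕ) : RatFunc ℚ) * (QL.q ^ n - 1) * (QL.q ^ (m * (l + 1)) / (1 - QL.q ^ (m * (l + 1)))))]
  have h4 : ∀ j ∈ range d, ∑ l ∈ range k, ((j + 1 : ℕ) : RatFunc ℚ) * (QL.q ^ n - 1) * (QL.q ^ (m * (l + 1)) / (1 - QL.q ^ (m * (l + 1)))) =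
      ((j + 1 : ℕ) : RatFunc ℚ) * ((QL.q ^ n - 1) * H m k) := by
    intro j _
    unfold H
    rw [mul_sum, mul_sum]
    apply sum_congr rfl
    intro l _
    ring
  rw [sum_congr rfl h4, ← sum_mul]
  have h5 : ∑ j ∈ range d, ((j + 1 : ℕ) : RatFunc ℚ) = (m : RatFunc ℚ) := by
    rw [← Nat.cast_sum]
    congr 1
    have h2 := Finset.sum_range_id_mul_two (d + 1)
    rw [sum_range_succ', add_zero, Nat.add_sub_cancel] at h2
    rw [mul_comm (d + 1) d] at h2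
    omega
  rw [h5]
  ring

/-- the constant -/
def DD (m n c d : ℕ) : RatFunc ℚ :=
  ∏ j ∈ range d, ∏ i ∈ range ((j + 1) * c - 1), e (((m * (i + 1) : ℕ) : ℤ) - ((j + 1 : ℕ) : ℤ) * n)

lemma term_eq {c d : ℕ} (hmc : m * c = n + 1) (hc0 : 0 < c) (k : ℕ) :
    (∏ j ∈ range d, qp (q ^ (j + 1)) (q ^ m) k) / qp (q ^ m) (q ^ m) k ^ d * DD m n c d =
      (∏ j ∈ range d, ∏ l ∈ range k, rt m n j l) *
        ∏ j ∈ range d, ∏ i ∈ range ((j + 1) * c - 1), e (((m * (k + i + 1) : ℕ) : ℤ) - ((j + 1 : ℕ) : ℤ) * n) := by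
  have h1 : qp (q ^ m) (q ^ m) k = ∏ l ∈ range k, e ((m * (l + 1) : ℕ) : ℤ) := by
    unfold qp
    apply prod_congr rfl
    intro l _
    rw [e_nat, q_def, ← pow_mul, ← pow_add]
    congr 2; ring
  have h2 : ∀ j, qp (q ^ (j + 1)) (q ^ m) k = ∏ l ∈ range k, e (((m * ((j + 1) * c - 1 + l + 1) : ℕ) : ℤ) - ((j + 1 : ℕ) : ℤ) * n) := by
    intro j
    unfold qp
    apply prod_congr rfl
    intro l _
    have h9 := Nat.mul_pos (Nat.succ_pos j) hc0
    rw [Nat.succ_eq_add_one] at h9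
    have h3 : ((m * ((j + 1) * c - 1 + l + 1) : ℕ) : ℤ) - ((j + 1 : ℕ) : ℤ) * n = ((j + 1 + m * l : ℕ) : ℤ) := by
      have h4 : (j + 1) * c - 1 + l + 1 = (j + 1) * c + l := by omega
      have h5 : (m : ℤ) * c = n + 1 := by exact_mod_cast hmc
      rw [h4]
      push_cast
      linear_combination ((j : ℤ) + 1) * h5
    rw [h3, e_nat, q_def, ← pow_mul, ← pow_add]
  unfold DD
  rw [h1, Finset.pow_eq_prod_const _ d, ← prod_div_distrib, ← prod_mul_distrib, ← prod_mul_distrib]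
  apply prod_congr rfl
  intro j _
  rw [h2]
  unfold rt
  rw [prod_div_distrib]
  have h6 := prod_range_add (fun i => e (((m * (i + 1) : ℕ) : ℤ) - ((j + 1 : ℕ) : ℤ) * n)) ((j + 1) * c - 1) k
  have h7 := prod_range_add (fun i => e (((m * (i + 1) : ℕ) : ℤ) - ((j + 1 : ℕ) : ℤ) * n)) k ((j + 1) * c - 1)
  rw [add_comm k, h6] at h7
  rw [div_mul_eq_mul_div, div_mul_eq_mul_div, mul_comm (∏ l ∈ range k, e (((m * ((j + 1) * c - 1 + l + 1) : ℕ) : ℤ) - ((j + 1 : ℕ) : ℤ) * n)), h7]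

lemma zeroSq_of_QO {Φ : ℚ[X]} (hΦ : ¬ IsUnit Φ) {F : RatFunc ℚ} (h : QO Φ 2 F) : ZeroSq Φ F := by
  obtain ⟨y, ⟨a, b, h1, h2⟩, h3⟩ := h
  refine ⟨Φ ^ 2 * a, b, h1, dvd_mul_right _ _, ?_⟩
  have hb : b ≠ 0 := by
    rintro rfl
    exact hΦ (isCoprime_zero_left.1 h1)
  rw [eq_div_iff (al_ne hb), h3, map_mul, map_pow, mul_assoc, h2]

/-- **Full positive answer to Q1.** -/
theorem result (d n : ℕ) (hd : 3 ≤ d) (hn : 1 < n) (h : d * (d + 1) / 2 ∣ n + 1) :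
    ZeroSq (cyclotomic n ℚ) (S d n) := by
  have hn0 : 0 < n := by omega
  obtain ⟨c, hc⟩ := h
  set m := d * (d + 1) / 2 with hm
  have hc0 : 0 < c := by
    rcases Nat.eq_zero_or_pos c with h0 | h0
    · rw [h0, mul_zero] at hc; omega
    · exact h0
  have hcop : Nat.Coprime n m := by
    have h1 : Nat.Coprime n (n + 1) := by simp
    exact Nat.Coprime.coprime_dvd_right ⟨c, hc⟩ h1
  have hm2 : 2 * d ≤ m := by
    rw [hm, Nat.le_div_iff_mul_le (by norm_num)]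
    nlinarith
  have hdc : 2 * (d * c) ≤ n + 1 := by
    rw [hc, ← mul_assoc]
    exact Nat.mul_le_mul_right c hm2
  apply zeroSq_of_QO (cyclotomic.irreducible_rat hn0).not_isUnit
  have hDmem : (DD m n c d)⁻¹ ∈ Loc (cyclotomic n ℚ) := by
    unfold DD
    rw [← prod_inv_distrib]
    apply (Loc _).prod_mem
    intro j hj
    rw [← prod_inv_distrib]
    apply (Loc _).prod_mem
    intro i hi
    have h1 := mem_range.1 hj
    have h2 := mem_range.1 hi
    have h3 : (j + 1) * c ≤ d * c := Nat.mul_le_mul_right c (by omega)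
    exact e_inv hn0 (not_dvd' hcop (by omega) (by omega) _)
  have hDne : DD m n c d ≠ 0 := by
    unfold DD
    rw [prod_ne_zero_iff]
    intro j hj
    rw [prod_ne_zero_iff]
    intro i hi
    have h1 := mem_range.1 hj
    have h2 := mem_range.1 hi
    have h3 : (j + 1) * c ≤ d * c := Nat.mul_le_mul_right c (by omega)
    exact e_ne (fun h0 => not_dvd' hcop (s := i + 1) (by omega) (by omega) ((j + 1 : ℕ) : ℤ) (h0 ▸ dvd_zero _))
  have hdeg : (FF m n c d hn0).natDegree + 1 < n := by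
    have h1 := FF_deg (m := m) (n := n) c d hn0
    have h2 := sum_deg (d := d) hc0
    rw [← hm, ← hc] at h2
    omega
  have h1 := poly_moment hn0 hcop (FF m n c d hn0) hdeg
  have h2 : Eqm (cyclotomic n ℚ) 2 (S d n * DD m n c d) (∑ k ∈ range n, QL.q ^ (m * k) * (FF m n c d hn0).eval₂ (Loc (cyclotomic n ℚ)).subtype (QL.q ^ (m * k)) *
      (1 + m * (QL.q ^ n - 1) * H m k)) := by
    unfold S
    rw [sum_mul, ← hm]
    apply Eqm.sum
    intro k hk
    have hk' := mem_range.1 hk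
    have h3 := rt_prod hn0 d hm hcop hk'
    rw [FF_eval]
    have h4 : (∏ j ∈ range d, ∏ i ∈ range ((j + 1) * c - 1), e (((m * (k + i + 1) : ℕ) : ℤ) - ((j + 1 : ℕ) : ℤ) * n)) ∈ Loc (cyclotomic n ℚ) :=
      (Loc _).prod_mem (fun j _ => (Loc _).prod_mem (fun i _ => e_mem hn0 _))
    have h5 := Eqm.mul_left ((Loc _).mul_mem ((Loc _).pow_mem (q_mem _) (m * k)) h4) h3
    convert h5 using 1
    rw [mul_right_comm, term_eq hc.symm hc0 k, q_def]
    ring
  have h3 : QO (cyclotomic n ℚ) 2 (S d n * DD m n c d) := by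
    have := QO.add h2 h1
    rwa [sub_add_cancel] at this
  have h4 := QO.mul_right h3 hDmem
  rwa [mul_assoc, mul_inv_cancel₀ hDne, mul_one] at h4

end

end Pool.Agent.Results.MP_4d1f21_nt.AllD
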